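import Pool.Agent.Run7.h33.TheoremB

/-!
# Linearity of `F_n ⋊ ℤ` for automorphisms twisting basis letters by powers of fixed letters

`Run7.h33.Gersten.Twisted φ` says that every basis letter `x_i` of the free group is either fixed
by `φ` or sent to `x_j ^ p * x_i * x_k ^ q` with `x_j`, `x_k` basis letters fixed by `φ`.
`Run7.h33.Gersten.VirtuallyTwisted φ` says that some positive power of `φ` becomes twisted after
composing with an inner automorphism and conjugating in `Aut(F)`.

The theorem contains the family `a_0 ↦ a_0`, `a_i ↦ a_0^{p_i} a_i a_0^{q_i}` for all integers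
`p_i`, `q_i`, hence Gersten's group, which is not CAT(0) and not virtually special.
-/

namespace Pool.Agent.Results.MP_1f284c_al.VirtuallyTwisted

/-- For every field `K` of characteristic zero containing a transcendental element and every
`φ = ψ(1) ∈ Aut(F_n)` that is virtually twisted, `F_n ⋊ ℤ` embeds in some `GL_d(K)`. -/
theorem result (K : Type*) [Field K] [CharZero K] (hK : ∃ t : K, Transcendental ℚ t)
    (n : ℕ) (ψ : Multiplicative ℤ →* MulAut (FreeGroup (Fin n)))
    (hψ : Run7.h33.Gersten.VirtuallyTwisted (ψ (Multiplicative.ofAdd 1))) :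
    ∃ (d : ℕ) (f : FreeGroup (Fin n) ⋊[ψ] Multiplicative ℤ →* Matrix.GeneralLinearGroup (Fin d) K),
      Function.Injective f :=
  Run7.h33.Gersten.linear_of_virtuallyTwisted hK ψ hψ

end Pool.Agent.Results.MP_1f284c_al.VirtuallyTwisted
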